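import Pool.Agent.TH121.RG.Main

/-!
# MP_76188c_nt: `ℓ`-adic regulators, direct factors and the middle degree

`T : Regulators K` collects the regulators `r_ℓ` of the smooth projective varieties `X` over number
fields `k`, and `IsRegulatorTheory T` lists the known facts which are used (see the file of the
definitions). We show:

1. If `(X, i, j)` is a direct factor of a finite sum of triples `(Y, i', j')` (by maps which are
  compatible with the regulators and preserve the semistable classes, such as those given by
  correspondences and by restriction and corestriction), and if each `Y` is the spectrum of a number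
  field or satisfies Q1 for `(i', j')`, then Q1 holds for `(X, i, j)`. So Q1 holds, for all `ℓ`, `i`,
  `j`, for the varieties whose Chow motives are direct factors of sums of Tate twists of motives of
  number fields, for example for quadrics, flag varieties, toric varieties and geometrically rational
  surfaces, and Q1 for `X ⊗ k'` implies Q1 for `X`.
2. Q1 holds if it holds for the varieties `X` over `k = ℚ` and for `i - 1 = dim X`.
3. Q1 holds if it holds for `i - 1 = dim X` and the varieties `X` over number fields `k` which have a
  projective strictly semistable model over the ring of integers of `k`.
-/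

set_option autoImplicit false

namespace Pool.Agent.Results.MP_76188c_nt.DirectFactors

open Pool.Agent.TH121.RG

/-- **Q1 for direct factors, and the reduction to the middle degree over `ℚ` or for semistable
varieties.** -/
theorem result {K : Type} [Field K] (T : Regulators K) (hT : IsRegulatorTheory T) :
    (∀ (X : T.Var) (i j : ℤ) (n : ℕ) (Y : Fin n → T.Var) (i' j' : Fin n → ℤ),
      T.IsFactor X i j Y i' j' → (∀ m, T.IsPoint (Y m) ∨ T.QOneFor (Y m) (i' m) (j' m)) →
      T.QOneFor X i j) ∧
    ((∀ X i j, T.IsOverQ X → i = T.dim X + 1 → T.QOneFor X i j) → ∀ X i j, T.QOneFor X i j) ∧
    ((∀ X i j, T.IsSemistable X → i = T.dim X + 1 → T.QOneFor X i j) →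
      ∀ X i j, T.QOneFor X i j) :=
  Regulators.main hT

end Pool.Agent.Results.MP_76188c_nt.DirectFactors
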